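import Pool.Agent.helper7.CSG.SpecJ

/-!
# csg:ABC (MP_70a088_an, class S): sizes in the blocks (helper31), copy of Pool/Agent/helper38/PL/ABC.lean
-/

set_option autoImplicit false

open Complex Metric Set Filter Topology MeasureTheory
open Pool.Agent.helper98.ILF
open HY (UD T S hd UN RM)
open PM (DD rm cx pd cr hdf)
open CSF (Sy it PB VC Lv Om PV hdx FC RL gg bt)

noncomputable section

namespace CSJ

theorem ABC_crit (hLVB : LVB_stmt) (Y : Sy) (hY : Ok Y) (j : ℕ) (q : ℂ) (hq : deriv Y.f (it Y j q) = 0) :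
    deriv (it Y (j + 1)) q = 0 := by
  obtain ⟨hd, -, hs, -, -⟩ := hLVB Y hY
  have h1 : it Y (j + 1) = fun z => Y.f (it Y j z) := funext (fun z => hs j z)
  rw [h1]
  have h2 : HasDerivAt (it Y j) (deriv (it Y j) q) q := (hd j q).hasDerivAt
  have h3 : HasDerivAt Y.f (deriv Y.f (it Y j q)) (it Y j q) := (hY.dif (it Y j q)).hasDerivAt
  have h4 : HasDerivAt (fun z => Y.f (it Y j z)) (deriv Y.f (it Y j q) * deriv (it Y j) q) q := h3.comp q h2
  rw [h4.deriv, hq, zero_mul]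

theorem ABC_mem {W : Set ℂ} {a b : ℂ} (h : pd W a b < 1) : a ∈ W ∧ b ∈ W := by
  by_contra hn
  unfold pd at h
  rw [if_neg hn] at h
  exact lt_irrefl _ h

theorem ABC (hABA : ABA_stmt) (hABB : ABB_stmt) (hACH : ACH_stmt) (hLVB : LVB_stmt) : ABC_stmt := by
  intro Y hY K δL cL b₀ δ₁ δ₂ hP V hL t p hS
  obtain ⟨-, -, hA3, -⟩ := hABA Y hY K δL cL b₀ δ₁ δ₂ hP V hL t p hS
  obtain ⟨-, -, hB3⟩ := hABB Y hY K δL cL b₀ δ₁ δ₂ hP V hL t p hS
  obtain ⟨hC1, hCm, hC3, -, -, -⟩ := hACH Y hY V hL p hS.om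
  have hVC : ∀ l, DD (VC Y V l p) ∧ p ∈ VC Y V l p := by
    intro l
    obtain ⟨-, -, -, -, hV⟩ := hLVB Y hY
    obtain ⟨-, -, -, -, -, -, -, hO, hB, -⟩ := hV V hL
    obtain ⟨h1, h2, _⟩ := hB l p (hO p hS.om 0 l).2
    exact ⟨h1, h2⟩
  obtain ⟨hK1, hEU⟩ := hP.eu
  have hK0 : 0 < K := by linarith
  have hδ2 := hP.d0
  have hcL := hP.c0
  have hKK : 1 ≤ K ^ 2 := by nlinarith
  have h42 : 4 * δ₂ ≤ δ₁ := by nlinarith [hP.d2]
  have hδ1 : 0 < δ₁ := by linarith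
  have hδ1L : δ₁ ≤ δL := hP.d1
  have hδL := hP.L1
  have hδ2L : δ₂ < δL := by linarith
  -- the size of `pd * cv`
  have key : ∀ v q, pd (VC Y V v p) p q < δ₁ →
      pd (VC Y V v p) p q * cv Y V p v ≤ K * ‖q - p‖ ∧ ‖q - p‖ ≤ K * (pd (VC Y V v p) p q * cv Y V p v) := by
    intro v q hq
    obtain ⟨h1, h2⟩ := hEU _ (hVC v).1 p (hVC v).2
    exact ⟨h1 q, h2 q (by linarith)⟩
  -- uniqueness of the entry point
  have huq : ∀ j q q', j + 1 ≤ t → deriv Y.f (it Y j q) = 0 → deriv Y.f (it Y j q') = 0 → pd (VC Y V (j + 1) p) p q < δ₂ →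
      pd (VC Y V (j + 1) p) p q' < δ₂ → q = q' := by
    intro j q q' hj hq hq' hd hd'
    have hm := (ABC_mem (lt_trans hd (by linarith) : pd (VC Y V (j + 1) p) p q < 1)).2
    have hm' := (ABC_mem (lt_trans hd' (by linarith) : pd (VC Y V (j + 1) p) p q' < 1)).2
    exact hS.sa (j + 1) hj q hm q' hm' (ABC_crit hLVB Y hY j q hq) (ABC_crit hLVB Y hY j q' hq') (lt_trans hd hδ2L) (lt_trans hd' hδ2L)
  have h2 : ∀ j v q, BK Y V δ₁ δ₂ t p j v → ¬ BK Y V δ₁ δ₂ t p j (v + 1) → deriv Y.f (it Y j q) = 0 → pd (VC Y V (j + 1) p) p q < δ₂ →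
      δ₁ * cv Y V p (v + 1) ≤ K * ‖q - p‖ := by
    intro j v q hB hB' hq hd
    obtain ⟨hjv, hvt, -⟩ := id hB
    have hvt' : v ≠ t := by
      intro h; subst h; exact hA3 j hB
    have hle : δ₁ ≤ pd (VC Y V (v + 1) p) p q := by
      by_contra hc
      exact hB' ⟨by omega, by omega, q, hq, hd, not_le.1 hc⟩
    have h1 := (hEU _ (hVC (v + 1)).1 p (hVC (v + 1)).2).1 q
    have h3 : 0 < cv Y V p (v + 1) := (hC1 (v + 1)).1
    calc δ₁ * cv Y V p (v + 1) ≤ pd (VC Y V (v + 1) p) p q * cv Y V p (v + 1) :=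
          mul_le_mul_of_nonneg_right hle h3.le
      _ ≤ K * ‖q - p‖ := h1
  refine ⟨?_, h2, ?_⟩
  · intro j u v hBu hBv
    obtain ⟨hju, hut, qu, hq1, hq2, hq3⟩ := id hBu
    obtain ⟨hjv, hvt, qv, hr1, hr2, hr3⟩ := id hBv
    have hqq : qu = qv := huq j qu qv (by omega) hq1 hr1 hq2 hr2
    subst hqq
    obtain ⟨-, -, -, hu4⟩ := hB3 j u qu hBu hq1 hq2
    obtain ⟨-, -, hv3, -⟩ := hB3 j v qu hBv hq1 hq2
    have eu : PV Y V p u * cv Y V p u ^ 2 = hv Y V p u * cv Y V p u := by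
      rw [(hC3 u).1]; ring
    have ev : PV Y V p v * cv Y V p v ^ 2 = hv Y V p v * cv Y V p v := by
      rw [(hC3 v).1]; ring
    rw [eu, ev]
    have cu0 : 0 < cv Y V p u := (hC1 u).1
    have cv0 : 0 < cv Y V p v := (hC1 v).1
    have ku := (key u qu hq3).1
    have kv := (key v qu hr3).2
    have a1 : hv Y V p u * cv Y V p u ≤ 8 * (K * ‖qu - p‖) := by
      calc hv Y V p u * cv Y V p u ≤ 8 * pd (VC Y V u p) p qu * cv Y V p u :=
            mul_le_mul_of_nonneg_right hu4 cu0.le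
        _ = 8 * (pd (VC Y V u p) p qu * cv Y V p u) := by ring
        _ ≤ 8 * (K * ‖qu - p‖) := by linarith
    have a2 : cL * ‖qu - p‖ ≤ K * (hv Y V p v * cv Y V p v) := by
      calc cL * ‖qu - p‖ ≤ cL * (K * (pd (VC Y V v p) p qu * cv Y V p v)) :=
            mul_le_mul_of_nonneg_left kv hcL.le
        _ = K * (cL * pd (VC Y V v p) p qu * cv Y V p v) := by ring
        _ ≤ K * (hv Y V p v * cv Y V p v) :=
            mul_le_mul_of_nonneg_left (mul_le_mul_of_nonneg_right hv3 cv0.le) hK0.le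
    calc cL * (hv Y V p u * cv Y V p u) ≤ cL * (8 * (K * ‖qu - p‖)) := mul_le_mul_of_nonneg_left a1 hcL.le
      _ = 8 * K * (cL * ‖qu - p‖) := by ring
      _ ≤ 8 * K * (K * (hv Y V p v * cv Y V p v)) := mul_le_mul_of_nonneg_left a2 (by positivity)
      _ = 8 * K ^ 2 * (hv Y V p v * cv Y V p v) := by ring
  · intro j v hB hB'
    obtain ⟨hjv, hvt, q, hq1, hq2, hq3⟩ := id hB
    have b1 := h2 j v q hB hB' hq1 hq2
    have b2 := (key (j + 1) q (by linarith)).2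
    have cj0 : 0 < cv Y V p (j + 1) := (hC1 (j + 1)).1
    have b3 : pd (VC Y V (j + 1) p) p q * cv Y V p (j + 1) ≤ δ₂ * cv Y V p (j + 1) :=
      mul_le_mul_of_nonneg_right hq2.le cj0.le
    have b4 : K * ‖q - p‖ ≤ K ^ 2 * δ₂ * cv Y V p (j + 1) := by
      calc K * ‖q - p‖ ≤ K * (K * (pd (VC Y V (j + 1) p) p q * cv Y V p (j + 1))) :=
            mul_le_mul_of_nonneg_left b2 hK0.le
        _ ≤ K * (K * (δ₂ * cv Y V p (j + 1))) :=
            mul_le_mul_of_nonneg_left (mul_le_mul_of_nonneg_left b3 hK0.le) hK0.le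
        _ = K ^ 2 * δ₂ * cv Y V p (j + 1) := by ring
    have b5 : 4 * (K ^ 2 * δ₂ * cv Y V p (j + 1)) ≤ δ₁ * cv Y V p (j + 1) := by
      have := mul_le_mul_of_nonneg_right hP.d2 cj0.le
      linarith [this]
    have b6 : δ₁ * (4 * cv Y V p (v + 1)) ≤ δ₁ * cv Y V p (j + 1) := by linarith
    exact le_of_mul_le_mul_left b6 hδ1

end CSJ
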