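import Pool.Agent.helper7.CSG.SpecJ

/-!
# csg:ACV (MP_70a088_an, class S): the count of the visits (helper31), copy of Pool/Agent/helper31/PL/ACV.lean
-/

set_option autoImplicit false

open Complex Metric Set Filter Topology MeasureTheory
open Pool.Agent.helper98.ILF
open HY (UD T S hd UN RM)
open PM (DD rm cx pd cr hdf)
open CSF (Sy it PB VC Lv Om PV hdx FC RL gg bt)

noncomputable section

namespace CSJ

theorem ACV_prm {K δL cL b₀ δ₁ δ₂ : ℝ}
    (h : PRM K δL cL b₀ δ₁ δ₂) : 1 ≤ K ∧ cL * δ₂ ≤ 1 := by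
  have h1 := h.eu.1
  refine ⟨h1, ?_⟩
  have hK : 1 ≤ K ^ 2 := by nlinarith
  have h4 := h.L0
  have h5 := h.L1
  have h6 := h.c0
  have h7 := h.c1
  have h8 := h.d0
  have h9 := h.d2
  have h10 := h.d1
  have h11 : 4 * δ₂ ≤ δ₁ := by nlinarith
  nlinarith

theorem ACV (hATE : PL.ATE_stmt) (hACN : ACN_stmt) (hABA : ABA_stmt) (hABB : ABB_stmt)
    (hABC : ABC_stmt) (hACH : ACH_stmt) : ACV_stmt := by
  intro Y hY δ ε₀ hW K δL cL b₀ δ₁ δ₂ hprm
  obtain ⟨hK1, hcd1⟩ := ACV_prm hprm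
  have hcL := hprm.c0
  have hcL1 := hprm.c1
  have hδ2 := hprm.d0
  have hb0 := hprm.b0
  have hcd : 0 < cL * δ₂ := mul_pos hcL hδ2
  obtain ⟨Ca, hCa, hA⟩ := hACN Y hY δ ε₀ hW (cL * δ₂) hcd
  obtain ⟨Cb, hCb, hB⟩ := hACN Y hY δ ε₀ hW (cL / 8) (by positivity)
  set q : ℝ := 8 * K ^ 2 / cL with hq
  have hq1 : 1 ≤ q := by
    rw [hq, le_div_iff₀ hcL]
    nlinarith
  have hq0 : 0 < q := by linarith
  have hL1 : 0 ≤ Real.log (1 / (cL * δ₂)) := by
    apply Real.log_nonneg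
    rw [le_div_iff₀ hcd, one_mul]
    exact hcd1
  have hLq : 0 ≤ Real.log q := Real.log_nonneg hq1
  set C₁ : ℝ := Ca * (1 + Real.log (1 / (cL * δ₂))) + Cb * (2 + 2 * Real.log q) with hC₁
  have ha1 : 0 < Ca * (1 + Real.log (1 / (cL * δ₂))) := by positivity
  have hb1 : 0 < Cb * (2 + 2 * Real.log q) := by positivity
  refine ⟨4 * C₁, by positivity, ?_⟩
  intro V hL0 t p hSQ T' b σ ι hTt hσ hσ1 hι
  obtain ⟨A1, A2, A3, A4⟩ := hABA Y hY K δL cL b₀ δ₁ δ₂ hprm V hL0 t p hSQ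
  obtain ⟨B1, B2, -⟩ := hABB Y hY K δL cL b₀ δ₁ δ₂ hprm V hL0 t p hSQ
  obtain ⟨D1, -, D3⟩ := hABC Y hY K δL cL b₀ δ₁ δ₂ hprm V hL0 t p hSQ
  obtain ⟨E1, E2, E3, E4, -, E6⟩ := hACH Y hY V hL0 p hSQ.om
  have hcv : ∀ v, 0 < cv Y V p v := fun v => (E1 v).1
  have hrat : ∀ u v, u ≤ v → 1 ≤ cv Y V p u / cv Y V p v := by
    intro u v huv
    rw [le_div_iff₀ (hcv v), one_mul]
    exact E2 u v huv
  have hlog : ∀ u v, u ≤ v → 0 ≤ Real.log (cv Y V p u / cv Y V p v) := fun u v huv =>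
    Real.log_nonneg (hrat u v huv)
  have hgood : 0 < hv Y V p t := lt_of_lt_of_le hb0 hSQ.good
  have hPV : ∀ v ≤ t, 0 < PV Y V p v := fun v hv => (E4 v (E6 t hgood v hv)).1
  have hBt : ∀ j v, BK Y V δ₁ δ₂ t p j v → j < v ∧ v < t := by
    intro j v hbk
    refine ⟨hbk.1, lt_of_le_of_ne hbk.2.1 ?_⟩
    rintro rfl
    exact A3 j hbk
  have key := hATE t T' (cv Y V p) (BK Y V δ₁ δ₂ t p) (C₁ / σ) ι (by positivity) hTt E1 hBt
    A1 A2 D3 (fun v hv => ⟨(hι v hv).1, (hι v hv).2.1⟩) ?_ ?_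
  · calc (ι.card : ℝ) ≤ 4 * (C₁ / σ) * (1 + Real.log (cv Y V p T' / cv Y V p t)) := key
      _ = 4 * C₁ / σ * (1 + Real.log (cv Y V p T' / cv Y V p t)) := by ring
  · intro ι' hsub hno
    have hT := hcv T'
    have ht := hcv t
    have h1 := hA V hL0 p b σ (cL * δ₂ / cv Y V p T') (1 / cv Y V p t) ι' hSQ.om hSQ.na hσ hσ1
      (by positivity) ?_ ?_ ?_
    · have e1 : 1 / cv Y V p t / (cL * δ₂ / cv Y V p T') =
          1 / (cL * δ₂) * (cv Y V p T' / cv Y V p t) := by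
        field_simp
      rw [e1, Real.log_mul (by positivity) (by positivity)] at h1
      have h2 := hlog T' t hTt
      set L := Real.log (cv Y V p T' / cv Y V p t) with hL
      have h3 : Ca / σ * (1 + (Real.log (1 / (cL * δ₂)) + L)) ≤
          Ca / σ * ((1 + Real.log (1 / (cL * δ₂))) * (1 + L)) := by
        apply mul_le_mul_of_nonneg_left _ (by positivity)
        nlinarith
      have h4 : Ca / σ * ((1 + Real.log (1 / (cL * δ₂))) * (1 + L)) ≤ C₁ / σ * (1 + L) := by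
        have e2 : Ca / σ * ((1 + Real.log (1 / (cL * δ₂))) * (1 + L)) =
            Ca * (1 + Real.log (1 / (cL * δ₂))) / σ * (1 + L) := by ring
        rw [e2]
        apply mul_le_mul_of_nonneg_right _ (by linarith)
        apply div_le_div_of_nonneg_right _ hσ.le
        linarith
      exact h1.trans (h3.trans h4)
    · rw [div_le_div_iff₀ hT ht, one_mul]
      have := E2 T' t hTt
      calc cL * δ₂ * cv Y V p t ≤ 1 * cv Y V p t := mul_le_mul_of_nonneg_right hcd1 ht.le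
        _ = cv Y V p t := one_mul _
        _ ≤ cv Y V p T' := this
    · intro u hu
      obtain ⟨u1, u2, u3⟩ := hι u (hsub hu)
      have hu0 := hcv u
      have h5 := A4 u u2.le (hno u hu)
      obtain ⟨h6, -, h7⟩ := E3 u
      have hpu := hPV u u2.le
      rw [h6] at h5 h7
      refine ⟨u3, ?_, ?_⟩
      · rw [div_le_iff₀ hT]
        have := mul_le_mul_of_nonneg_left (E2 T' u u1.le) hpu.le
        linarith
      · rw [le_div_iff₀ ht]
        have := mul_le_mul_of_nonneg_left (E2 u t u2.le) hpu.le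
        linarith
    · intro u hu v hv huv
      exact B2 u v huv.le (hι v (hsub hv)).2.1.le (hno v hv)
  · intro ι' hsub j u₀ v₀ hu₀ hv₀ huv hall
    have hcu := hcv u₀
    have hcw := hcv v₀
    have hu₀t := (hBt j u₀ hu₀).2
    have hM : 0 < PV Y V p u₀ * cv Y V p u₀ ^ 2 := by
      have := hPV u₀ hu₀t.le
      positivity
    set M := PV Y V p u₀ * cv Y V p u₀ ^ 2 with hMd
    have h1 := hB V hL0 p b σ (M / (q * cv Y V p u₀ ^ 2)) (q * M / cv Y V p v₀ ^ 2) ι' hSQ.om hSQ.na hσ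
      hσ1 (by positivity) ?_ ?_ ?_
    · have e1 : q * M / cv Y V p v₀ ^ 2 / (M / (q * cv Y V p u₀ ^ 2)) =
          q ^ 2 * (cv Y V p u₀ / cv Y V p v₀) ^ 2 := by
        field_simp
      rw [e1, Real.log_mul (by positivity) (by positivity), Real.log_pow, Real.log_pow] at h1
      have h2 := hlog u₀ v₀ huv
      set L := Real.log (cv Y V p u₀ / cv Y V p v₀) with hL
      have h3 : Cb / σ * (1 + ((2 : ℕ) * Real.log q + (2 : ℕ) * L)) ≤
          Cb / σ * ((2 + 2 * Real.log q) * (1 + L)) := by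
        apply mul_le_mul_of_nonneg_left _ (by positivity)
        push_cast
        nlinarith
      have h4 : Cb / σ * ((2 + 2 * Real.log q) * (1 + L)) ≤ C₁ / σ * (1 + L) := by
        have e2 : Cb / σ * ((2 + 2 * Real.log q) * (1 + L)) =
            Cb * (2 + 2 * Real.log q) / σ * (1 + L) := by ring
        rw [e2]
        apply mul_le_mul_of_nonneg_right _ (by linarith)
        apply div_le_div_of_nonneg_right _ hσ.le
        linarith
      exact h1.trans (h3.trans h4)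
    · rw [div_le_div_iff₀ (by positivity) (by positivity)]
      have h5 : cv Y V p v₀ ^ 2 ≤ cv Y V p u₀ ^ 2 :=
        pow_le_pow_left₀ hcw.le (E2 u₀ v₀ huv) 2
      have h6 : M * cv Y V p v₀ ^ 2 ≤ M * cv Y V p u₀ ^ 2 :=
        mul_le_mul_of_nonneg_left h5 hM.le
      have h7 : 1 ≤ q * q := by nlinarith
      have h8 : 0 ≤ M * cv Y V p u₀ ^ 2 := by positivity
      calc M * cv Y V p v₀ ^ 2 ≤ M * cv Y V p u₀ ^ 2 := h6
        _ ≤ (q * q) * (M * cv Y V p u₀ ^ 2) := le_mul_of_one_le_left h8 h7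
        _ = q * M * (q * cv Y V p u₀ ^ 2) := by ring
    · intro v hv
      obtain ⟨w1, w2, w3⟩ := hall v hv
      have hvt := (hBt j v w1).2
      have hcv' := hcv v
      have hpv := hPV v hvt.le
      have i1 := D1 j u₀ v hu₀ w1
      have i2 := D1 j v u₀ w1 hu₀
      rw [← hMd] at i1 i2
      refine ⟨(hι v (hsub hv)).2.2, ?_, ?_⟩
      · rw [div_le_iff₀ (by positivity)]
        have j1 : cv Y V p v ^ 2 ≤ cv Y V p u₀ ^ 2 :=
          pow_le_pow_left₀ hcv'.le (E2 u₀ v w2) 2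
        have j2 : PV Y V p v * cv Y V p v ^ 2 ≤ PV Y V p v * cv Y V p u₀ ^ 2 :=
          mul_le_mul_of_nonneg_left j1 hpv.le
        have j3 : M ≤ q * (PV Y V p v * cv Y V p v ^ 2) := by
          rw [hq, div_mul_eq_mul_div, le_div_iff₀ hcL, mul_comm M cL]
          exact i1
        calc M ≤ q * (PV Y V p v * cv Y V p v ^ 2) := j3
          _ ≤ q * (PV Y V p v * cv Y V p u₀ ^ 2) := mul_le_mul_of_nonneg_left j2 hq0.le
          _ = PV Y V p v * (q * cv Y V p u₀ ^ 2) := by ring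
      · rw [le_div_iff₀ (by positivity)]
        have j1 : cv Y V p v₀ ^ 2 ≤ cv Y V p v ^ 2 :=
          pow_le_pow_left₀ hcw.le (E2 v v₀ w3) 2
        have j2 : PV Y V p v * cv Y V p v₀ ^ 2 ≤ PV Y V p v * cv Y V p v ^ 2 :=
          mul_le_mul_of_nonneg_left j1 hpv.le
        have j3 : PV Y V p v * cv Y V p v ^ 2 ≤ q * M := by
          rw [hq, div_mul_eq_mul_div, le_div_iff₀ hcL, mul_comm _ cL]
          exact i2
        exact j2.trans j3
    · intro u hu v hv huv'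
      exact B1 j u v (hall u hu).1 (hall v hv).1 huv'.le

end CSJ
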