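import Pool.Agent.helper7.CSG.SpecD

/-!
# csg:SQX (MP_70a088_an, class S): the setting at `p` (helper31)
-/

set_option autoImplicit false

open Complex Metric Set Filter Topology MeasureTheory
open Pool.Agent.helper98.ILF
open HY (UD T S hd UN RM)
open PM (DD rm cx pd cr hdf LP DP)
open CSS (SE SV it JJ IB)
open PL (INR PG DK ht tr DI CY hG hq)

noncomputable section

namespace P2S

/-- the data of `p` at all levels `n + v`, `v ≤ t`. -/
lemma SQX_lev (hVCF : VCF_stmt) (hVKF : VKF_stmt) (hTIN : PM.TIN_stmt) (f : SE) (V : Set ℂ) (hS : SS f V)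
    (x : ℂ) (hx : x ∈ JK f V) (n t : ℕ) (p : ℂ) (hp : p ∈ VC f V (n + t) x) (h34 : pd (VC f V (n + t) x) x p ≤ 3 / 4) (v : ℕ) (hv : v ≤ t) :
    p ∈ VC f V (n + v) x ∧ pd (VC f V (n + v) x) x p ≤ 3 / 4 ∧ VC f V (n + v) p = VC f V (n + v) x ∧
    VC f V n (it f v p) = VC f V n (it f v x) := by
  obtain ⟨-, -, -, -, -, -, hJ, -⟩ := hVKF f V hS
  have hxt : x ∈ VK f V (n + t) := by
    have := (hJ x hx 0 (n + t)).2
    exact this
  have hxv : x ∈ VK f V (n + v) := by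
    have := (hJ x hx 0 (n + v)).2
    exact this
  obtain ⟨hD, hm, -, -, -, hsub, -, -⟩ := hVCF f V hS (n + t) x hxt
  obtain ⟨hD', hm', -, hcomp', -, -, hmap', -⟩ := hVCF f V hS (n + v) x hxv
  have hss : VC f V (n + t) x ⊆ VC f V (n + v) x := hsub (n + v) (by omega)
  have hpv : p ∈ VC f V (n + v) x := hss hp
  refine ⟨hpv, ?_, hcomp' p hpv, ?_⟩
  · exact le_trans ((hTIN (VC f V (n + t) x) (VC f V (n + v) x) hD hD' hss x hm).2 p) h34
  · have hmt := hmap' v (by omega) hpv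
    have e : n + v - v = n := by omega
    rw [e] at hmt
    have hxn : it f v x ∈ VK f V n := (hJ x hx v n).2
    obtain ⟨-, -, -, hc, -, -, -, -⟩ := hVCF f V hS n (it f v x) hxn
    exact hc _ hmt

theorem SQX (hSPA : SPA_stmt) (hSPC : SPC_stmt) (hSPQ : SPQ_stmt) (hSFT : SFT_stmt) (hVSV : VSV_stmt) (hGIN : GIN_stmt) (hJNA : JNA_stmt)
    (hVCF : VCF_stmt) (hVKF : VKF_stmt) (hAEU : PL.AEU_stmt) (hTIN : PM.TIN_stmt) : SQX_stmt := by
  intro f V hS μ x₀ hTP P hC a b₀ ha hb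
  obtain ⟨K, hK⟩ := hAEU
  obtain ⟨δA, hA0, hA1, HA, hA⟩ := hSPA f V hS μ x₀ hTP P hC a ha
  obtain ⟨cC, hC0, hC1, HC, hCC⟩ := hSPC f V hS μ x₀ hTP P hC a ha
  obtain ⟨cQ, hQ0, hQ1, HQ, hQ⟩ := hSPQ f V hS μ x₀ hTP P hC a ha
  obtain ⟨kV, hV⟩ := hVSV f V hS (1 / 2) (by norm_num)
  have hK1 : 1 ≤ K := hK.1
  have hK2 : 0 < 4 * K ^ 2 := by positivity
  set δL : ℝ := min δA cQ with hδL
  set cL : ℝ := min cC cQ with hcL
  set δ₁ : ℝ := min (b₀ / 8) δL with hδ₁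
  set δ₂ : ℝ := δ₁ / (4 * K ^ 2) with hδ₂
  have hL0 : 0 < δL := lt_min hA0 hQ0
  have hLA : δL ≤ δA := min_le_left _ _
  have hLQ : δL ≤ cQ := min_le_right _ _
  have hc0 : 0 < cL := lt_min hC0 hQ0
  have hcC : cL ≤ cC := min_le_left _ _
  have hcQ : cL ≤ cQ := min_le_right _ _
  have hd1 : 0 < δ₁ := lt_min (by positivity) hL0
  have hd2 : 0 < δ₂ := div_pos hd1 hK2
  obtain ⟨c₃, hc3, hT⟩ := hSFT a δ₂ ha hd2
  refine ⟨K, δL, cL, δ₁, δ₂, δ₂, c₃, max (max HA HC) (max HQ kV), ?_, hd2, le_refl _, hc3, ?_⟩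
  · refine ⟨hK, hL0, le_trans hLA hA1, hc0, le_trans hcC hC1, hb, hd2, ?_, min_le_right _ _, ?_⟩
    · rw [hδ₂, mul_div_cancel₀ _ (ne_of_gt hK2)]
    · have : δ₁ ≤ b₀ / 8 := min_le_left _ _
      linarith
  intro k hk x n t hkn hP hLO p hpJ hps hp h34 hgood
  have hkA : HA ≤ k := le_trans (le_trans (le_max_left _ _) (le_max_left _ _)) hk
  have hkC : HC ≤ k := le_trans (le_trans (le_max_right _ _) (le_max_left _ _)) hk
  have hkQ : HQ ≤ k := le_trans (le_trans (le_max_left _ _) (le_max_right _ _)) hk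
  have hkV : kV ≤ k := le_trans (le_trans (le_max_right _ _) (le_max_right _ _)) hk
  have hx : x ∈ JK f V := hC.J k x (n + t) hP
  obtain ⟨-, hit, hG⟩ := hGIN f
  obtain ⟨-, hvc, hOm, -⟩ := hG V hS n
  have hitf : ∀ m : ℕ, CSF.it (SF f) m = it f m := fun m => funext (fun z => (hit m z).symm)
  have hvc' : ∀ (j : ℕ) (b : ℂ), CSF.VC (SF f) (VK f V n) j b = VC f V (n + j) b := fun j b => (hvc j b).symm
  have hvc0 : ∀ b : ℂ, CSF.VC (SF f) (VK f V n) 0 b = VC f V n b := fun b => hvc' 0 b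
  have hlev := SQX_lev hVCF hVKF hTIN f V hS x hx n t p hp h34
  have hPv : ∀ v ≤ t, P k x (n + v) := fun v hv => hC.up k x (n + t) (n + v) hP (by omega) (by omega)
  have hSf : (SF f).S = SV f := rfl
  have hff : (SF f).f = (fun z => f.eval z) := rfl
  obtain ⟨-, -, -, -, -, -, hJ, -⟩ := hVKF f V hS
  constructor
  · refine ⟨hOm p hpJ, hJNA f p hpJ.1, ?_, ?_, ?_, ?_, ?_, ?_, ?_⟩
    · intro i
      rw [hitf, hSf]
      exact hps i
    · obtain ⟨-, -, e1, e2⟩ := hlev t (le_refl _)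
      unfold CSJ.hv
      rw [hitf, hvc', hvc0, e1, e2]
      exact hgood
    · intro v hv q hq q' hq' h1 h2 h3 h4
      obtain ⟨hm, h34v, e1, e2⟩ := hlev v hv
      rw [hvc', e1] at hq hq' h3 h4
      rw [hitf] at h1 h2
      exact (hA k hkA x n v (hPv v hv) (hLO v hv) p hm h34v).1 q hq q' hq' h1 h2 (lt_of_lt_of_le h3 hLA) (lt_of_lt_of_le h4 hLA)
    · intro v hv q hq h1 i hi i' hi' h3 h4
      obtain ⟨hm, h34v, e1, e2⟩ := hlev v hv
      rw [hvc', e1] at hq h1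
      rw [hitf, hff] at h3 h4
      exact (hA k hkA x n v (hPv v hv) (hLO v hv) p hm h34v).2 q hq (lt_of_lt_of_le h1 hLA) i hi i' hi' h3 h4
    · intro v hv ρ hρ0 hρ1 h1
      obtain ⟨hm, h34v, e1, e2⟩ := hlev v hv
      have key := hCC k hkC x n v (hPv v hv) (hLO v hv) p hm h34v ρ hρ0 (le_trans hρ1 (le_trans hLA hA1)) (by
        intro q hq hd
        have := h1 q (by rw [hvc', e1]; exact hq) (by rw [hitf]; exact hd)
        rw [hvc', e1] at this
        exact this)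
      unfold CSJ.hv
      rw [hitf, hvc', hvc0, e1, e2]
      exact le_trans (mul_le_mul_of_nonneg_right hcC (le_of_lt hρ0)) key
    · intro v hv q hq hd h1
      obtain ⟨hm, h34v, e1, e2⟩ := hlev v hv
      rw [hvc', e1] at hq h1
      rw [hitf] at hd
      have key := hQ k hkQ x n v (hPv v hv) (hLO v hv) p hm h34v q hq hd (lt_of_lt_of_le h1 hLQ)
      rw [hitf, hvc', hvc0, e1, e2]
      exact le_trans (mul_le_mul_of_nonneg_right hcQ (sq_nonneg _)) key
    · intro v hv s hs s' hs' h1 h2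
      rw [hitf, hvc0] at h1 h2
      rw [hSf] at hs hs'
      by_contra hne
      have := hV n (by omega) (it f v p) (hJ p hpJ v 0).1 s hs s' hs' hne h1
      linarith
  · intro T hT1 hTt h
    obtain ⟨s, rfl⟩ : ∃ s, T = s + 1 := ⟨T - 1, by omega⟩
    obtain ⟨hm, h34v, e1, e2⟩ := hlev (s + 1) hTt
    have e3 : s + 1 - 1 = s := by omega
    rw [e3] at h ⊢
    rw [hitf, hitf, hvc', hvc0, hff]
    refine hT f V hS x hx n s (hLO (s + 1) hTt) p hm h34v ?_
    intro q hq h1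
    have := h q (by rw [hvc', e1]; exact hq) (by rw [hvc', e1]; exact h1)
    rw [hitf, hff] at this
    exact this

end P2S
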